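import Pool.Agent.Helper6.CI.Main

/-!
# Power saving for complete intersections (MP_2ae8fe_ag): the bad residues

`SolC`: the reduction modulo `r` of the intersection has a point over the reduction of a point.
-/

set_option autoImplicit false

open Finset MvPolynomial Pool.Agent.Helper11.Cov Pool.Agent.Helper6.RH Pool.Agent.Helper6.CI

namespace Pool.Agent.Helper94.CP

/-- The forms with coefficients `w + c` and the equations `I` over the point `γ` have a common zero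
modulo `r`. -/
def SolC {N n e r : ℕ} (I : Set (MvPolynomial (Vars N n) ℤ)) (d : Fin e → ℕ)
    (w : Idx N d → ZMod r) (γ : Fin n → Fin 3 → ZMod r) (c : Idx N d → ZMod r) : Prop :=
  ∃ z : Fin (N + 1) → ZMod r, z ≠ 0 ∧
    (∀ f ∈ I, eval₂ (Int.castRingHom (ZMod r)) (Sum.elim z fun p => γ p.1 p.2) f = 0) ∧
    ∀ i, ev (fun m => w ⟨i, m⟩ + c ⟨i, m⟩) z = 0

theorem solC_mono {N n e r : ℕ} [Fact r.Prime] {I : Set (MvPolynomial (Vars N n) ℤ)}
    (hI : ∀ f ∈ I, IsMultiHomogeneous f) {d : Fin e → ℕ} {w : Idx N d → ZMod r}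
    {γ γ' : Fin n → Fin 3 → ZMod r} {u : Fin n → ZMod r} (hu : ∀ i, u i ≠ 0)
    (hγ : ∀ i j, γ i j = u i * γ' i j) {c : Idx N d → ZMod r} (h : SolC I d w γ c) :
    SolC I d w γ' c := by
  obtain ⟨z, hz0, hz, hzc⟩ := h
  exact ⟨z, hz0, fun f hf => reduce_eqn' (hI f hf) z γ γ' u hu hγ (hz f hf), hzc⟩

/-- Independence of the choice of the coordinates. -/
theorem solC_class {N n e r : ℕ} [Fact r.Prime] {I : Set (MvPolynomial (Vars N n) ℤ)}
    (hI : ∀ f ∈ I, IsMultiHomogeneous f) {d : Fin e → ℕ} {w : Idx N d → ZMod r}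
    {γ γ' : Fin n → Fin 3 → ZMod r} {u : Fin n → ZMod r} (hu : ∀ i, u i ≠ 0)
    (hγ : ∀ i j, γ i j = u i * γ' i j) (c : Idx N d → ZMod r) :
    SolC I d w γ c ↔ SolC I d w γ' c := by
  refine ⟨solC_mono hI hu hγ, solC_mono hI (u := fun i => (u i)⁻¹)
    (fun i => inv_ne_zero (hu i)) (fun i j => ?_)⟩
  rw [hγ i j, ← mul_assoc, inv_mul_cancel₀ (hu i), one_mul]

/-- The coordinates modulo `r` of points with the same reduction. -/
theorem solC_inH {N n e r : ℕ} [Fact r.Prime] {a b : Fin n → ℤ}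
    {I : Set (MvPolynomial (Vars N n) ℤ)}
    (hI : ∀ f ∈ I, IsMultiHomogeneous f) {d : Fin e → ℕ} {w : Idx N d → ZMod r}
    {P P' : ∀ i, (E (a i) (b i)).Point} {A B D A' B' D' : Fin n → ℤ}
    (h : ∀ i, IRep (P i) (A i) (B i) (D i)) (h' : ∀ i, IRep (P' i) (A' i) (B' i) (D' i))
    (hH : ∀ i, InH r (P' i - P i)) (c : Idx N d → ZMod r) :
    SolC I d w (fun i => proj (A i : ZMod r) (B i : ZMod r) (D i : ZMod r)) c ↔
      SolC I d w (fun i => proj (A' i : ZMod r) (B' i : ZMod r) (D' i : ZMod r)) c := by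
  choose u hu hu' using fun i => proj_cong (r := r) (h i) (h' i) (hH i)
  exact (solC_class hI hu hu' c).symm

/-- The number of bad residues. -/
theorem solC_card {n N e : ℕ} (he : 1 ≤ e) (a b : Fin n → ℤ)
    (I : Set (MvPolynomial (Vars N n) ℤ)) (hI : ∀ f ∈ I, IsMultiHomogeneous f)
    (hdim : ∀ (Ω : Type) [Field Ω] [CharZero Ω] (c : Fin n → Fin 3 → Ω),
      (∀ i, OnCurve (a i) (b i) (c i)) →
        ringKrullDim (MvPolynomial (Fin (N + 1)) Ω ⧸ fibreIdeal I c) ≤ e + 1) :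
    ∃ D₀ r₀ : ℕ, ∃ θ : ℝ, 0 < θ ∧ θ ≤ 1 / 2 ∧ ∀ d : Fin e → ℕ, (∀ i, D₀ ≤ d i) →
      ∀ (r : ℕ) [Fact r.Prime], r₀ ≤ r → ∀ γ : Fin n → Fin 3 → ZMod r,
        (∀ i, OnCurve (a i) (b i) (γ i)) → ∀ (w : Idx N d → ZMod r)
          (S : Finset (Idx N d → ZMod r)), (∀ c ∈ S, SolC I d w γ c) →
            (S.card : ℝ) ≤ (1 - θ) * (r : ℝ) ^ Fintype.card (Idx N d) := by
  classical
  obtain ⟨C₀, r₀, hreps⟩ := reps a b I hI e hdim
  obtain ⟨K, θ, hK, hθ0, hθ2, hθ⟩ := Pool.Agent.Helper6.RD.exists_bs_lower C₀ (Nat.cast_nonneg C₀)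
  refine ⟨K, r₀, θ, hθ0, hθ2, fun d hd r _ hr γ hγ w S hS => ?_⟩
  obtain ⟨Z, hPI, hZ, hZ'⟩ := hreps r hr γ hγ
  obtain ⟨SS, h1, h2⟩ := count_modF d hK hθ hd he r Z hPI (by exact_mod_cast hZ) w
  refine le_trans ?_ h2
  have hsub : S ⊆ SS := by
    intro c hc
    obtain ⟨z, hz0, hz, hzc⟩ := hS c hc
    obtain ⟨z', hz', t, ht, rfl⟩ := hZ' z hz0 hz
    refine h1 c ⟨z', hz', fun i => ?_⟩
    have h3 := hzc i
    rw [ev_smul_right, mul_eq_zero] at h3
    exact h3.resolve_left (pow_ne_zero _ ht)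
  exact_mod_cast Finset.card_le_card hsub

/-- The reduction of a rational point. -/
theorem solC_point {n N e : ℕ} {a b : Fin n → ℤ} (hg : ∀ i, Good (a i) (b i))
    {I : Set (MvPolynomial (Vars N n) ℤ)} (hI : ∀ f ∈ I, IsMultiHomogeneous f) {d : Fin e → ℕ}
    (F : Fin e → MvPolynomial (Fin (N + 1)) ℤ)
    (hF : ∀ i, (F i).IsHomogeneous (d i)) {x : Fin (N + 1) → ℚ} {c : Fin n → Fin 3 → ℚ}
    (hp : IsPoint a b I F x c) :
    ∃ P : ∀ i, (E (a i) (b i)).Point, ∀ (r : ℕ) [Fact r.Prime] (A B D : Fin n → ℤ),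
      (∀ i, IRep (P i) (A i) (B i) (D i)) →
        SolC I d (fun _ => 0)
          (fun i => proj (A i : ZMod r) (B i : ZMod r) (D i : ZMod r))
          (fun p => ((toVec d F p : ℤ) : ZMod r)) := by
  obtain ⟨hx0, hcurv, hIx, hFx⟩ := hp
  obtain ⟨ξ, t₀, ht₀, hξ, hprim⟩ := exists_primitive x hx0
  choose P A' B' D' t hrep' ht hc using fun i => exists_point (hg i) (c i) (hcurv i)
  refine ⟨P, fun r hr A B D hrep => ?_⟩
  rw [solC_inH hI hrep hrep' (fun i => by rw [sub_self]; exact inH_zero)]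
  refine ⟨fun k => (ξ k : ZMod r), ?_, ?_, ?_⟩
  · obtain ⟨k, hk⟩ := hprim r hr.out
    intro h0
    apply hk
    rw [← ZMod.intCast_zmod_eq_zero_iff_dvd]
    exact congrFun h0 k
  · intro f hf
    exact reduce_eqn (hI f hf) x c (hIx f hf) ξ t₀ ht₀ hξ A' B' D' t ht hc r
  · intro i
    have h2 := reduce_form (hF i) x (hFx i) ξ t₀ ht₀ hξ r
    have h3 := ev_reduce (RingHom.id (ZMod r)) (F i) (hF i) (fun k => (ξ k : ZMod r))
    simp only [RingHom.id_apply] at h3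
    rw [h2] at h3
    refine Eq.trans ?_ h3
    congr 1
    funext m
    show (0 : ZMod r) + ((toVec d F ⟨i, m⟩ : ℤ) : ZMod r) = _
    rw [zero_add]
    rfl

/-- The coefficients may be split in any way. -/
theorem solC_shift {N n e r : ℕ} {I : Set (MvPolynomial (Vars N n) ℤ)} {d : Fin e → ℕ}
    {w c w' c' : Idx N d → ZMod r} {γ : Fin n → Fin 3 → ZMod r}
    (h : ∀ p, w p + c p = w' p + c' p) : SolC I d w γ c ↔ SolC I d w' γ c' := by
  unfold SolC
  have e1 : ∀ i, (fun m => w ⟨i, m⟩ + c ⟨i, m⟩) = fun m => w' ⟨i, m⟩ + c' ⟨i, m⟩ := by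
    intro i
    funext m
    exact h ⟨i, m⟩
  simp only [e1]

end Pool.Agent.Helper94.CP
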